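import Pool.Agent.Y192.KC.Fin

/-!
Values of Laurent polynomials attached to forms, restriction to coordinate subspaces.
-/

set_option autoImplicit false

namespace Pool.Agent.H70KG

open MvPolynomial Pool.Agent.Y192.OG Pool.Agent.Y192.KC

variable {N n : ℕ}

theorem lev_sum {ι : Type} (s : Finset ι) (g : ι → Lau N) (x : Fin N → ℂ) :
    lev (∑ i ∈ s, g i) x = ∑ i ∈ s, lev (g i) x := by
  classical
  induction s using Finset.induction_on with
  | empty => simp only [Finset.sum_empty, lev_zero]
  | insert a s ha ih => rw [Finset.sum_insert ha, Finset.sum_insert ha, lev_add, ih]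

theorem lev_mul (g h : Lau N) {x : Fin N → ℂ} (hx : ∀ i, x i ≠ 0) :
    lev (g * h) x = lev g x * lev h x := by
  induction g using AddMonoidAlgebra.induction_linear with
  | zero => rw [zero_mul, lev_zero, zero_mul]
  | add f g hf hg => rw [add_mul, lev_add, lev_add, hf, hg, add_mul]
  | single m a =>
    induction h using AddMonoidAlgebra.induction_linear with
    | zero => rw [mul_zero, lev_zero, mul_zero]
    | add f g hf hg => rw [mul_add, lev_add, lev_add, hf, hg, mul_add]
    | single m' a' =>
      rw [AddMonoidAlgebra.single_mul_single, lev_single, lev_single, lev_single]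
      have h1 : ∏ i, x i ^ (m + m') i = (∏ i, x i ^ m i) * ∏ i, x i ^ m' i := by
        rw [← Finset.prod_mul_distrib]
        exact Finset.prod_congr rfl fun i _ => by rw [Pi.add_apply, zpow_add₀ (hx i)]
      rw [h1]
      ring

theorem lev_laur (g : MvPolynomial (Fin (N + 1)) ℂ) {x : Fin N → ℂ} (hx : ∀ i, x i ≠ 0) :
    lev (laur g) x = eval (Fin.cons 1 x : Fin (N + 1) → ℂ) g := by
  induction g using MvPolynomial.induction_on with
  | C a =>
    have h1 : laur (C a : MvPolynomial (Fin (N + 1)) ℂ) = AddMonoidAlgebra.single 0 a := by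
      unfold laur
      rw [aeval_C]
      rfl
    rw [h1, lev_single, eval_C]
    simp
  | add p q hp hq =>
    have h1 : laur (p + q) = laur p + laur q := by
      unfold laur
      rw [map_add]
    rw [h1, lev_add, hp, hq, map_add]
  | mul_X p i hp =>
    have h1 : laur (p * X i) = laur p * laur (X i) := by
      unfold laur
      rw [map_mul]
    rw [h1, lev_mul _ _ hx, hp, map_mul, eval_X]
    congr 1
    unfold laur
    rw [aeval_X]
    refine Fin.cases ?_ (fun i => ?_) i
    · rw [Fin.cons_zero, Fin.cons_zero]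
      have h2 : (1 : Lau N) = AddMonoidAlgebra.single 0 1 := rfl
      rw [h2, lev_single]
      simp
    · rw [Fin.cons_succ, Fin.cons_succ, lev_single, one_mul]
      rw [Finset.prod_eq_single i]
      · rw [Pi.single_eq_same, zpow_one]
      · intro j _ hj
        rw [Pi.single_eq_of_ne hj, zpow_zero]
      · intro h
        exact absurd (Finset.mem_univ i) h

theorem eval_hom {σ : Type} {g : MvPolynomial σ ℂ} {k : ℕ} (hg : g.IsHomogeneous k) (c : ℂ)
    (v : σ → ℂ) : eval (fun i => c * v i) g = c ^ k * eval v g := by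
  rw [MvPolynomial.eval_eq, MvPolynomial.eval_eq, Finset.mul_sum]
  refine Finset.sum_congr rfl fun d hd => ?_
  have h1 : Finsupp.degree d = k := by
    have := hg (mem_support_iff.mp hd)
    rw [Finsupp.degree_eq_weight_one]
    exact this
  rw [Finset.prod_congr rfl (fun i _ => mul_pow c (v i) (d i)), Finset.prod_mul_distrib,
    Finset.prod_pow_eq_pow_sum]
  have h2 : ∑ i ∈ d.support, d i = k := h1
  rw [h2]
  ring

theorem eval_laur {g : MvPolynomial (Fin (N + 1)) ℂ} {k : ℕ} (hg : g.IsHomogeneous k)
    {v : Fin (N + 1) → ℂ} (hv : ∀ i, v i ≠ 0) :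
    eval v g = v 0 ^ k * lev (laur g) (tor v) := by
  rw [lev_laur g (x := tor v) (fun i => div_ne_zero (hv _) (hv 0)), ← eval_hom hg]
  congr 1
  refine congrArg (fun w : Fin (N + 1) → ℂ => eval w) ?_
  funext i
  refine Fin.cases ?_ (fun i => ?_) i
  · rw [Fin.cons_zero, mul_one]
  · rw [Fin.cons_succ]
    unfold tor
    rw [mul_div_cancel₀ _ (hv 0)]

/-- restriction to the coordinate subspace given by an injection -/
noncomputable def res (ι : Fin (N + 1) → Fin (n + 1)) :
    MvPolynomial (Fin (n + 1)) ℂ →ₐ[ℂ] MvPolynomial (Fin (N + 1)) ℂ := by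
  classical
  exact aeval fun i => if h : ∃ k, ι k = i then X h.choose else 0

theorem res_hom (ι : Fin (N + 1) → Fin (n + 1)) {f : MvPolynomial (Fin (n + 1)) ℂ} {k : ℕ}
    (hf : f.IsHomogeneous k) : (res ι f).IsHomogeneous k := by
  classical
  unfold res
  have h := hf.aeval (fun i => if h : ∃ k, ι k = i then
    (X h.choose : MvPolynomial (Fin (N + 1)) ℂ) else 0) (n := 1) (by
      intro i
      split_ifs with h
      · exact isHomogeneous_X ℂ _
      · exact isHomogeneous_zero _ _ _)
  rwa [one_mul] at h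

theorem eval_res {ι : Fin (N + 1) → Fin (n + 1)}
    (f : MvPolynomial (Fin (n + 1)) ℂ) {w : Fin (n + 1) → ℂ} (hw : ∀ i, (¬ ∃ k, ι k = i) → w i = 0) :
    eval (fun a => w (ι a)) (res ι f) = eval w f := by
  classical
  induction f using MvPolynomial.induction_on with
  | C a =>
    unfold res
    rw [aeval_C, eval_C]
    exact eval_C a
  | add p q hp hq => rw [map_add, map_add, map_add, hp, hq]
  | mul_X p i hp =>
    rw [map_mul, map_mul, map_mul, hp, eval_X]
    congr 1
    unfold res
    rw [aeval_X]
    split_ifs with h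
    · rw [eval_X, h.choose_spec]
    · rw [map_zero, hw i h]

theorem evalkey {ι : Fin (N + 1) → Fin (n + 1)}
    {f : MvPolynomial (Fin (n + 1)) ℂ} {k : ℕ} (hf : f.IsHomogeneous k) {w : Fin (n + 1) → ℂ}
    (hw : ∀ i, (¬ ∃ k, ι k = i) → w i = 0) (hw0 : ∀ a, w (ι a) ≠ 0) :
    eval w f = w (ι 0) ^ k * lev (laur (res ι f)) (tor fun a => w (ι a)) := by
  rw [← eval_res f hw, eval_laur (res_hom ι hf) hw0]

theorem lev_span {T : Set (Lau N)} {x : Fin N → ℂ} (hx : ∀ i, x i ≠ 0)
    (h : ∀ g ∈ T, lev g x = 0) : ∀ g ∈ Ideal.span T, lev g x = 0 := by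
  intro g hg
  induction hg using Submodule.span_induction with
  | mem g hg => exact h g hg
  | zero => exact lev_zero x
  | add a b _ _ ha hb => rw [lev_add, ha, hb, add_zero]
  | smul a b _ hb => rw [smul_eq_mul, lev_mul _ _ hx, hb, mul_zero]

end Pool.Agent.H70KG
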