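import Pool.Agent.H70KG.A2

/-!
Rational curves through the points of entire curves.
-/

set_option autoImplicit false

namespace Pool.Agent.H70KG

open MvPolynomial Filter Topology Pool.Agent.Y192.OG Pool.Agent.Y192.KC

variable {N n r : ℕ}

theorem ev_ne {a : ℂ → ℂ} (ha : Differentiable ℂ a) (hne : ∃ z, a z ≠ 0) (c : ℂ) :
    ∀ᶠ z in 𝓝[≠] c, a z ≠ 0 := by
  rcases (ha.analyticAt c).eventually_eq_zero_or_eventually_ne_zero with h | h
  · exfalso
    obtain ⟨w, hw⟩ := hne
    have h1 : AnalyticOnNhd ℂ a Set.univ := fun z _ => ha.analyticAt z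
    exact hw (h1.eqOn_zero_of_preconnected_of_eventuallyEq_zero isPreconnected_univ
      (Set.mem_univ c) h (Set.mem_univ w))
  · exact h

theorem countable_zeros {a : ℂ → ℂ} (ha : Differentiable ℂ a) (hne : ∃ z, a z ≠ 0) :
    {x | a x = 0}.Countable := by
  apply (HereditarilyLindelofSpace.isLindelof _).countable_of_isDiscrete
  rw [isDiscrete_iff_nhdsNE]
  intro c _
  rw [← _root_.disjoint_iff, Filter.disjoint_principal_right]
  filter_upwards [ev_ne ha hne c] with x hx
  exact hx

/-- the order of an entire function which is not identically zero is finite -/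
theorem ord_fin {a : ℂ → ℂ} (ha : Differentiable ℂ a) (hne : ∃ z, a z ≠ 0) (c : ℂ) :
    ∃ k : ℕ, analyticOrderAt a c = (k : ℕ∞) := by
  have h1 : analyticOrderAt a c ≠ ⊤ := by
    rw [Ne, analyticOrderAt_eq_top]
    intro h
    have h2 := ev_ne ha hne c
    obtain ⟨z, hz⟩ := (h2.and (h.filter_mono nhdsWithin_le_nhds)).exists
    exact hz.1 hz.2
  exact ⟨_, (ENat.natCast_toNat h1).symm⟩

/-- an entire function with a constant positive power is constant -/
theorem const_of_pow {g : ℂ → ℂ} (hg : Differentiable ℂ g) {k : ℕ} (hk : 0 < k)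
    (h : ∀ z z', g z ^ k = g z' ^ k) (z z' : ℂ) : g z = g z' := by
  by_cases h0 : g 0 = 0
  · have h1 : ∀ z, g z = 0 := by
      intro z
      have h2 := h z 0
      rw [h0, zero_pow hk.ne'] at h2
      exact (pow_eq_zero_iff hk.ne').mp h2
    rw [h1, h1]
  · refine is_const_of_deriv_eq_zero hg (fun w => ?_) z z'
    have h1 : ∀ w, g w ≠ 0 := by
      intro w hw
      have h2 := h 0 w
      rw [hw, zero_pow hk.ne'] at h2
      exact h0 ((pow_eq_zero_iff hk.ne').mp h2)
    have h2 : deriv (fun z => g z ^ k) w = 0 := by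
      have h3 : (fun z => g z ^ k) = fun _ => g 0 ^ k := funext fun z => h z 0
      rw [h3, deriv_const]
    rw [deriv_fun_pow (hg w)] at h2
    have h4 : (k : ℂ) * g w ^ (k - 1) ≠ 0 :=
      mul_ne_zero (Nat.cast_ne_zero.mpr hk.ne') (pow_ne_zero _ (h1 w))
    exact (mul_eq_zero.mp h2).resolve_left h4

theorem t_ratl : St_core → St_ratl := by
  classical
  intro hcore n r X
  have hc : ∀ (N : ℕ) (ι : Fin (N + 1) → Fin (n + 1)), ∃ m0 : ℕ, ∀ m, m0 ≤ m →
      (∀ j, X.e j ≠ 0 → X.e j ∣ m) → ∀ U : Fin (N + 1) → ℂ → ℂ, (∀ i, Differentiable ℂ (U i)) →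
      (∀ z, ∃ i, U i z ≠ 0) → (∀ i, ∃ z, U i z ≠ 0) →
      (∀ i z, ∃ a : ℕ, analyticOrderAt (U i) z = ((m * a : ℕ) : ℕ∞)) →
      (∀ g ∈ Ideal.span ((fun f => laur (res ι f)) '' X.E), ∀ z, (∀ i, U i z ≠ 0) →
        lev g (tor fun i => U i z) = 0) →
      (∀ j, (∀ z, (∀ i, U i z ≠ 0) → lev (laur (res ι (X.F j))) (tor fun i => U i z) = 0) ∨
        ∀ z, ∃ a : ℤ, meromorphicOrderAt
          (fun z => lev (laur (res ι (X.F j))) (tor fun i => U i z)) z
          = ((md m (X.e j) * a : ℤ) : WithTop ℤ)) →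
      (∃ z z' i, U i z * U 0 z' ≠ U i z' * U 0 z) →
      {z | (∀ i, U i z ≠ 0) ∧ ¬ OrbPt (Ideal.span ((fun f => laur (res ι f)) '' X.E))
        (fun j => laur (res ι (X.F j))) X.e (tor fun i => U i z)}.Countable := fun N ι =>
    hcore N r (Ideal.span ((fun f => laur (res ι f)) '' X.E)) (fun j => laur (res ι (X.F j))) X.e
  choose mm hmm using hc
  refine ⟨max 1 ((Finset.range (n + 1)).sup fun N => Finset.univ.sup fun ι => mm N ι),
    fun m hm he u v huv => ?_⟩
  have hm0 : 0 < m := lt_of_lt_of_le one_pos ((le_max_left _ _).trans hm)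
  have hdu : ∀ i, Differentiable ℂ fun z => u z i := fun i => differentiable_pi.mp huv.diffu i
  have hdv : ∀ j, Differentiable ℂ fun z => v z j := fun j => differentiable_pi.mp huv.diffv j
  -- the coordinates which are not identically zero
  set T : Finset (Fin (n + 1)) := Finset.univ.filter fun i => ∃ z, u z i ≠ 0 with hT
  have hTne : T.Nonempty := by
    by_contra hcon
    apply (huv.mem 0).1
    funext i
    by_contra hi
    exact hcon ⟨i, Finset.mem_filter.mpr ⟨Finset.mem_univ i, 0, hi⟩⟩
  obtain ⟨N, hN⟩ : ∃ N, T.card = N + 1 := ⟨T.card - 1, by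
    have := Finset.card_pos.mpr hTne
    omega⟩
  have hNn : N ≤ n := by
    have := Finset.card_le_univ T
    rw [hN, Fintype.card_fin] at this
    omega
  obtain ⟨ι, hιinj, hιT⟩ : ∃ ι : Fin (N + 1) → Fin (n + 1), Function.Injective ι ∧
      ∀ i, (∃ k, ι k = i) ↔ i ∈ T := by
    refine ⟨fun k => T.orderEmbOfFin hN k, (T.orderEmbOfFin hN).injective, fun i => ?_⟩
    have := T.range_orderEmbOfFin hN
    rw [← Finset.mem_coe, ← this]
    rfl
  have hιne : ∀ k, ∃ z, u z (ι k) ≠ 0 := fun k =>
    (Finset.mem_filter.mp ((hιT _).mp ⟨k, rfl⟩)).2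
  have hoff : ∀ z i, (¬ ∃ k, ι k = i) → u z i = 0 := by
    intro z i hi
    by_contra h
    exact hi ((hιT i).mpr (Finset.mem_filter.mpr ⟨Finset.mem_univ i, z, h⟩))
  have hmN : mm N ι ≤ m := by
    refine le_trans ?_ ((le_max_right _ _).trans hm)
    refine le_trans ?_ (Finset.le_sup (f := fun N => Finset.univ.sup fun ι => mm N ι)
      (Finset.mem_range.mpr (Nat.lt_succ_of_le hNn)))
    exact Finset.le_sup (f := fun ι => mm N ι) (Finset.mem_univ ι)
  set U : Fin (N + 1) → ℂ → ℂ := fun k z => u z (ι k) ^ m with hU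
  have hUne : ∀ k z, U k z ≠ 0 ↔ u z (ι k) ≠ 0 := by
    intro k z
    rw [hU]
    simp only [ne_eq, pow_eq_zero_iff hm0.ne']
  have hwt : ∀ j, X.e j * X.wt m j = m * X.d j := by
    intro j
    unfold Proj.wt
    exact Nat.mul_div_cancel' (Dvd.dvd.mul_right (he j) _)
  have hU2 : ∀ z, ∃ i, U i z ≠ 0 := by
    intro z
    by_contra hcon
    push Not at hcon
    apply (huv.mem z).1
    funext i
    by_cases hi : ∃ k, ι k = i
    · obtain ⟨k, rfl⟩ := hi
      by_contra h
      exact (hUne k z).mpr h (hcon k)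
    · exact hoff z i hi
  have hU3 : ∀ i, ∃ z, U i z ≠ 0 := by
    intro i
    obtain ⟨z, hz⟩ := hιne i
    exact ⟨z, (hUne i z).mpr hz⟩
  -- values of forms
  have hval : ∀ z, (∀ i, U i z ≠ 0) → ∀ (f : MvPolynomial (Fin (n + 1)) ℂ) (k : ℕ),
      f.IsHomogeneous k → eval (fun i => u z i ^ m) f
        = U 0 z ^ k * lev (laur (res ι f)) (tor fun i => U i z) := by
    intro z hz f k hf
    refine evalkey (w := fun i => u z i ^ m) hf (fun i hi => ?_) hz
    rw [hoff z i hi, zero_pow hm0.ne']
  have hcount := hmm N ι m hmN (fun j _ => he j) U (fun i => (hdu (ι i)).pow m) hU2 hU3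
    (by
      intro i z
      obtain ⟨k, hk⟩ := ord_fin (hdu (ι i)) (hιne i) z
      refine ⟨k, ?_⟩
      have h1 : U i = (fun z => u z (ι i)) ^ m := rfl
      rw [h1, analyticOrderAt_pow ((hdu (ι i)).analyticAt z), hk]
      push_cast
      rw [nsmul_eq_mul])
    (by
      intro g hg z hz
      refine lev_span (fun i => div_ne_zero (hz _) (hz 0)) ?_ g hg
      rintro _ ⟨f, hf, rfl⟩
      obtain ⟨k, hk⟩ := X.hE f hf
      have h1 := hval z hz f k hk
      rw [(huv.mem z).2.1 f hf] at h1
      exact (mul_eq_zero.mp h1.symm).resolve_left (pow_ne_zero _ (hz 0)))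
    (by
      intro j
      by_cases hj : ∃ z, v z j ≠ 0
      · right
        intro z
        obtain ⟨k1, hk1⟩ := ord_fin (hdv j) hj z
        obtain ⟨k0, hk0⟩ := ord_fin (hdu (ι 0)) (hιne 0) z
        set h : ℂ → ℂ := fun z => v z j / u z (ι 0) ^ X.wt m j with hh
        have hmero : MeromorphicAt h z := ((hdv j).analyticAt z).meromorphicAt.fun_div
          (((hdu (ι 0)).analyticAt z).meromorphicAt.fun_pow _)
        have hev : (fun z => lev (laur (res ι (X.F j))) (tor fun i => U i z))
            =ᶠ[𝓝[≠] z] h ^ X.e j := by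
          have h1 : ∀ᶠ w in 𝓝[≠] z, ∀ i, u w (ι i) ≠ 0 := by
            rw [Filter.eventually_all]
            exact fun i => ev_ne (hdu (ι i)) (hιne i) z
          filter_upwards [h1] with w hw
          have h2 := hval w (fun i => (hUne i w).mpr (hw i)) (X.F j) _ (X.hF j)
          rw [← (huv.mem w).2.2 j] at h2
          have h3 : u w (ι 0) ≠ 0 := hw 0
          have h4 : U 0 w ^ X.d j = (u w (ι 0) ^ X.wt m j) ^ X.e j := by
            rw [hU]
            simp only
            rw [← pow_mul, ← pow_mul, ← hwt j, mul_comm]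
          rw [Pi.pow_apply, hh]
          simp only
          rw [div_pow, h2, h4]
          have h5 : (u w (ι 0) ^ X.wt m j) ^ X.e j ≠ 0 := pow_ne_zero _ (pow_ne_zero _ h3)
          rw [mul_div_cancel_left₀ _ h5]
        have hord : ∃ a : ℤ, meromorphicOrderAt h z = (a : WithTop ℤ) := by
          have h1 : meromorphicOrderAt h z ≠ ⊤ := by
            rw [Ne, meromorphicOrderAt_eq_top_iff]
            intro h2
            obtain ⟨w, hw⟩ := ((ev_ne (hdv j) hj z).and
              ((ev_ne (hdu (ι 0)) (hιne 0) z).and h2)).exists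
            exact div_ne_zero hw.1 (pow_ne_zero _ hw.2.1) hw.2.2
          exact ⟨_, (WithTop.coe_untop _ h1).symm⟩
        obtain ⟨a, ha⟩ := hord
        refine ⟨a, ?_⟩
        rw [meromorphicOrderAt_congr hev, meromorphicOrderAt_pow hmero, ha]
        have h2 : md m (X.e j) = X.e j := by
          unfold md
          rw [if_neg (X.he j).ne']
        rw [h2]
        push_cast
        rfl
      · left
        push Not at hj
        intro z hz
        have h1 := hval z hz (X.F j) _ (X.hF j)
        rw [← (huv.mem z).2.2 j, hj z, zero_pow (X.he j).ne'] at h1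
        exact (mul_eq_zero.mp h1.symm).resolve_left (pow_ne_zero _ (hz 0)))
    (by
      by_contra hcon
      push Not at hcon
      have hu00 : ∀ z, u z (ι 0) ≠ 0 := by
        intro z h0
        have h1 : U 0 z = 0 := by
          by_contra h
          exact (hUne 0 z).mp h h0
        obtain ⟨i, hi⟩ := hU2 z
        obtain ⟨z', hz'⟩ := hU3 0
        have h2 := hcon z z' i
        rw [h1, mul_zero] at h2
        exact (mul_ne_zero hi hz') h2
      have hrat : ∀ k z z', u z (ι k) / u z (ι 0) = u z' (ι k) / u z' (ι 0) := by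
        intro k
        refine const_of_pow (g := fun z => u z (ι k) / u z (ι 0))
          ((hdu (ι k)).fun_div (hdu (ι 0)) hu00) hm0 ?_
        intro z z'
        rw [div_pow, div_pow, div_eq_div_iff (pow_ne_zero _ (hu00 z)) (pow_ne_zero _ (hu00 z'))]
        exact hcon z z' k
      have hui : ∀ i z, u z i = u 0 i / u 0 (ι 0) * u z (ι 0) := by
        intro i z
        by_cases hi : ∃ k, ι k = i
        · obtain ⟨k, rfl⟩ := hi
          rw [hrat k 0 z, div_mul_cancel₀ _ (hu00 z)]
        · rw [hoff z i hi, hoff 0 i hi, zero_div, zero_mul]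
      have hvj : ∀ j z z', v z j / u z (ι 0) ^ X.wt m j = v z' j / u z' (ι 0) ^ X.wt m j := by
        intro j
        refine const_of_pow (g := fun z => v z j / u z (ι 0) ^ X.wt m j)
          ((hdv j).fun_div ((hdu (ι 0)).fun_pow _) fun z => pow_ne_zero _ (hu00 z)) (X.he j) ?_
        have h1 : ∀ z, (v z j / u z (ι 0) ^ X.wt m j) ^ X.e j
            = eval (fun i => (u 0 i / u 0 (ι 0)) ^ m) (X.F j) := by
          intro z
          have h2 : (fun i => u z i ^ m) = fun i => u z (ι 0) ^ m * (u 0 i / u 0 (ι 0)) ^ m := by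
            funext i
            rw [hui i z, mul_pow]
            ring
          have h3 := (huv.mem z).2.2 j
          rw [h2, eval_hom (X.hF j)] at h3
          rw [div_pow, h3, ← pow_mul, ← pow_mul, mul_comm (X.wt m j), hwt j,
            mul_div_cancel_left₀ _ (pow_ne_zero _ (hu00 z))]
        intro z z'
        rw [h1, h1]
      obtain ⟨z, z', hne⟩ := huv.nonconst
      apply hne
      refine ⟨u z' (ι 0) / u z (ι 0), div_ne_zero (hu00 z') (hu00 z), fun i => ?_, fun j => ?_⟩
      · rw [hui i z', hui i z]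
        have := hu00 z
        field_simp
      · have h1 := hvj j z z'
        have h2 : u z (ι 0) ^ X.wt m j ≠ 0 := pow_ne_zero _ (hu00 z)
        have h3 : u z' (ι 0) ^ X.wt m j ≠ 0 := pow_ne_zero _ (hu00 z')
        rw [div_eq_div_iff h2 h3] at h1
        rw [div_pow]
        field_simp
        linear_combination -h1)
  have hzeros : (⋃ i, {z | u z (ι i) = 0}).Countable :=
    Set.countable_iUnion fun i => countable_zeros (hdu (ι i)) (hιne i)
  refine (hcount.union hzeros).mono ?_
  intro z hz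
  by_cases h0 : ∃ i, u z (ι i) = 0
  · exact Or.inr (Set.mem_iUnion.mpr h0)
  · push Not at h0
    left
    refine ⟨fun i => (hUne i z).mpr (h0 i), fun hO => hz ?_⟩
    exact rat_of_orb X hm0 he hιinj (hoff z) h0 (huv.mem z) hO

end Pool.Agent.H70KG
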